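import Mathlib
import Pool.Agent.R405.QS3

/-!
Lines on a smooth quadric surface: each is a line of one of the two rulings.
-/

set_option autoImplicit false

open Finset

namespace Pool.Agent.U155.QS

open Pool.Agent.R405 Pool.Agent.R405.QS

variable {F : Type} [Field F]

theorem fac (z0 z1 z2 z3 : F) (h : z0 * z3 = z1 * z2) (hz : ¬(z0 = 0 ∧ z1 = 0 ∧ z2 = 0 ∧ z3 = 0)) :
    ∃ u0 u1 v0 v1 : F, z0 = u0 * v0 ∧ z1 = u0 * v1 ∧ z2 = u1 * v0 ∧ z3 = u1 * v1 ∧
      ¬(u0 = 0 ∧ u1 = 0) ∧ ¬(v0 = 0 ∧ v1 = 0) := by
  by_cases h0 : z0 = 0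
  · by_cases h1 : z1 = 0
    · refine ⟨0, 1, z2, z3, by simp [h0], by simp [h1], by simp, by simp, by simp, ?_⟩
      rintro ⟨h2, h3⟩
      exact hz ⟨h0, h1, h2, h3⟩
    · have h2 : z2 = 0 := by
        rw [h0, zero_mul] at h
        exact (mul_eq_zero.1 h.symm).resolve_left h1
      exact ⟨z1, z3, 0, 1, by simp [h0], by simp, by simp [h2], by simp, by simp [h1], by simp⟩
  · refine ⟨z0, z2, 1, z1 / z0, by simp, by field_simp, by simp, ?_, by simp [h0], by simp⟩
    field_simp
    linear_combination h

/-- a line on the quadric belongs to one of the rulings -/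
theorem line_ruling (E : Fin 4 → Fin 4 → F) (hE : (Matrix.of E).det ≠ 0) (p q : Fin 4 → F)
    (hp0 : p ≠ 0) (hq0 : q ≠ 0) (hp : On E p) (hq : On E q) (hpq : On E (p + q)) :
    (∃ a : Fin 2 → F, a ≠ 0 ∧ ∀ j, dot (row E a j) p = 0 ∧ dot (row E a j) q = 0) ∨
    (∃ b : Fin 2 → F, b ≠ 0 ∧ ∀ j, dot (row (swp E) b j) p = 0 ∧
      dot (row (swp E) b j) q = 0) := by
  have hne : ∀ x : Fin 4 → F, x ≠ 0 → ¬(dot (E 0) x = 0 ∧ dot (E 1) x = 0 ∧ dot (E 2) x = 0 ∧
      dot (E 3) x = 0) := by
    rintro x hx ⟨h0, h1, h2, h3⟩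
    apply hE
    apply Matrix.exists_mulVec_eq_zero_iff.1
    refine ⟨x, hx, ?_⟩
    funext l
    rcases (by decide : ∀ l : Fin 4, l = 0 ∨ l = 1 ∨ l = 2 ∨ l = 3) l with rfl | rfl | rfl | rfl
    · exact h0
    · exact h1
    · exact h2
    · exact h3
  have hdadd : ∀ l, dot (E l) (p + q) = dot (E l) p + dot (E l) q := by
    intro l
    simp only [dot, Pi.add_apply, mul_add, Finset.sum_add_distrib]
  unfold On at hp hq hpq
  rw [hdadd, hdadd, hdadd, hdadd] at hpq
  obtain ⟨u0, u1, v0, v1, e0, e1, e2, e3, hu, hv⟩ := fac _ _ _ _ hp (hne p hp0)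
  obtain ⟨u0', u1', v0', v1', e0', e1', e2', e3', hu', hv'⟩ := fac _ _ _ _ hq (hne q hq0)
  rw [e0, e1, e2, e3, e0', e1', e2', e3'] at hpq
  have hkey : (u1 * u0' - u0 * u1') * (v1 * v0' - v0 * v1') = 0 := by linear_combination hpq
  rcases mul_eq_zero.1 hkey with h | h
  · left
    refine ⟨![u1, -u0], ?_, fun j => ?_⟩
    · intro h0
      apply hu
      have t0 := congrFun h0 0
      have t1 := congrFun h0 1
      simp at t0 t1
      exact ⟨t1, t0⟩
    · fin_cases j
      · constructor
        · show dot (row E ![u1, -u0] 0) p = 0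
          rw [dot_row0, e0, e2]
          simp only [Matrix.cons_val]
          ring
        · show dot (row E ![u1, -u0] 0) q = 0
          rw [dot_row0, e0', e2']
          simp only [Matrix.cons_val]
          linear_combination v0' * h
      · constructor
        · show dot (row E ![u1, -u0] 1) p = 0
          rw [dot_row1, e1, e3]
          simp only [Matrix.cons_val]
          ring
        · show dot (row E ![u1, -u0] 1) q = 0
          rw [dot_row1, e1', e3']
          simp only [Matrix.cons_val]
          linear_combination v1' * h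
  · right
    refine ⟨![v1, -v0], ?_, fun j => ?_⟩
    · intro h0
      apply hv
      have t0 := congrFun h0 0
      have t1 := congrFun h0 1
      simp at t0 t1
      exact ⟨t1, t0⟩
    · fin_cases j
      · constructor
        · show dot (row (swp E) ![v1, -v0] 0) p = 0
          rw [dot_col0, e0, e1]
          simp only [Matrix.cons_val]
          ring
        · show dot (row (swp E) ![v1, -v0] 0) q = 0
          rw [dot_col0, e0', e1']
          simp only [Matrix.cons_val]
          linear_combination u0' * h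
      · constructor
        · show dot (row (swp E) ![v1, -v0] 1) p = 0
          rw [dot_col1, e2, e3]
          simp only [Matrix.cons_val]
          ring
        · show dot (row (swp E) ![v1, -v0] 1) q = 0
          rw [dot_col1, e2', e3']
          simp only [Matrix.cons_val]
          linear_combination u1' * h

/-- two points which span the zeros of two independent linear forms, over all extensions -/
theorem exists_pts {K : Type} [Field K] (g : Fin 2 → Fin 4 → K) (hg : LinearIndependent K g) :
    ∃ (h : Fin 2 → Fin 4 → K) (p : Fin 2 → Fin 4 → K), (∀ i, p i ≠ 0) ∧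
      (∀ i e, dot (g e) (p i) = 0) ∧
      ∀ (L : Type) [Field L] [Algebra K L] (y : Fin 4 → L),
        (∀ e, dot (exv L (g e)) y = 0) →
          y = dot (exv L (h 0)) y • exv L (p 0) + dot (exv L (h 1)) y • exv L (p 1) := by
  classical
  obtain ⟨C, hC⟩ := Submodule.exists_isCompl (Submodule.span K (Set.range g))
  have hfr : Module.finrank K (Submodule.span K (Set.range g)) = 2 := by
    rw [finrank_span_eq_card hg, Fintype.card_fin]
  have hfC : Module.finrank K C = 2 := by
    have h1 := Submodule.finrank_add_eq_of_isCompl hC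
    rw [hfr, Module.finrank_fin_fun] at h1
    omega
  let c : Module.Basis (Fin 2) K C := Module.finBasisOfFinrankEq K C hfC
  have hc : LinearIndependent K (fun i => (c i : Fin 4 → K)) :=
    c.linearIndependent.map' C.subtype C.ker_subtype
  have hsp : Submodule.span K (Set.range fun i => (c i : Fin 4 → K)) ≤ C := by
    rw [Submodule.span_le]
    rintro _ ⟨i, rfl⟩
    exact (c i).2
  have hli := hg.sum_type hc (hC.disjoint.mono_right hsp)
  set G : Fin 4 → Fin 4 → K := ![g 0, g 1, (c 0 : Fin 4 → K), (c 1 : Fin 4 → K)] with hG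
  have hGli : LinearIndependent K G := by
    have h1 := hli.comp (finSumFinEquiv (m := 2) (n := 2)).symm (Equiv.injective _)
    have h2 : (Sum.elim g fun i => (c i : Fin 4 → K)) ∘ (finSumFinEquiv (m := 2) (n := 2)).symm =
        G := by
      funext l
      rcases (by decide : ∀ l : Fin 4, l = 0 ∨ l = 1 ∨ l = 2 ∨ l = 3) l with
        rfl | rfl | rfl | rfl <;> rfl
    rwa [h2] at h1
  have hdet : (Matrix.of G).det ≠ 0 := by
    have h1 : IsUnit (Matrix.of G) := Matrix.linearIndependent_rows_iff_isUnit.1 hGli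
    exact ((Matrix.isUnit_iff_isUnit_det _).1 h1).ne_zero
  set N : Matrix (Fin 4) (Fin 4) K := (Matrix.of G)⁻¹ with hN
  have hNG : N * Matrix.of G = 1 := Matrix.nonsing_inv_mul _ (IsUnit.mk0 _ hdet)
  have hGN : Matrix.of G * N = 1 := Matrix.mul_nonsing_inv _ (IsUnit.mk0 _ hdet)
  have hGN' : ∀ i j, dot (G i) (fun b => N b j) = if i = j then 1 else 0 := by
    intro i j
    have h1 := congrFun (congrFun hGN i) j
    rw [Matrix.mul_apply, Matrix.one_apply] at h1
    exact h1
  refine ⟨fun i => (c i : Fin 4 → K), ![fun b => N b 2, fun b => N b 3], ?_, ?_, ?_⟩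
  · intro i h0
    fin_cases i
    · have h1 := hGN' 2 2
      have h2 : (fun b => N b 2) = 0 := h0
      rw [h2] at h1
      simp [dot] at h1
    · have h1 := hGN' 3 3
      have h2 : (fun b => N b 3) = 0 := h0
      rw [h2] at h1
      simp [dot] at h1
  · intro i e
    fin_cases i <;> fin_cases e
    · exact hGN' 0 2
    · exact hGN' 1 2
    · exact hGN' 0 3
    · exact hGN' 1 3
  · intro L _ _ y hy
    funext b
    have h1 : (N.map (algebraMap K L)) * ((Matrix.of G).map (algebraMap K L)) = 1 := by
      rw [← Matrix.map_mul, hNG, Matrix.map_one _ (map_zero _) (map_one _)]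
    have h2 : y = ((N.map (algebraMap K L)) * ((Matrix.of G).map (algebraMap K L))).mulVec y := by
      rw [h1, Matrix.one_mulVec]
    have h3 : y b = ∑ l, algebraMap K L (N b l) * dot (exv L (G l)) y := by
      conv_lhs => rw [h2, ← Matrix.mulVec_mulVec]
      rfl
    rw [h3, Fin.sum_univ_four]
    have t0 : dot (exv L (G 0)) y = 0 := hy 0
    have t1 : dot (exv L (G 1)) y = 0 := hy 1
    rw [t0, t1]
    simp only [Pi.add_apply, Pi.smul_apply, smul_eq_mul, exv, Matrix.cons_val]
    have t2 : G 2 = (c 0 : Fin 4 → K) := rfl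
    have t3 : G 3 = (c 1 : Fin 4 → K) := rfl
    rw [t2, t3]
    ring

end Pool.Agent.U155.QS
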