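import Mathlib
import Pool.Agent.U155.QS.A

/-!
Lines on a smooth quadric surface: comparison of the equations with those of the rulings.
-/

set_option autoImplicit false
set_option linter.unusedSectionVars false

open Finset

namespace Pool.Agent.U155.QS

open Pool.Agent.R405 Pool.Agent.R405.QS
open Pool.Agent.W180.OP (nrm le_nrm nrm_pos nrm_nonneg exists_nrm not_small)

section lin

variable {F : Type} [Field F]

theorem dot_comb (c : Fin 2 → F) (S : Fin 2 → Fin 4 → F) (x : Fin 4 → F) :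
    dot (c 0 • S 0 + c 1 • S 1) x = c 0 * dot (S 0) x + c 1 * dot (S 1) x := by
  rw [dot_add, dot_smul, dot_smul]

/-- inversion of a two by two system -/
theorem inv2 {V : Type} [AddCommGroup V] [Module F V] (R S : Fin 2 → V)
    (hR : LinearIndependent F R) (c : Fin 2 → Fin 2 → F)
    (hc : ∀ j, R j = c j 0 • S 0 + c j 1 • S 1) :
    ∃ d : Fin 2 → Fin 2 → F, ∀ e, S e = d e 0 • R 0 + d e 1 • R 1 := by
  have hli : ∀ s t : F, s • R 0 + t • R 1 = 0 → s = 0 ∧ t = 0 := by
    intro s t h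
    have h1 := Fintype.linearIndependent_iff.1 hR ![s, t] (by
      rw [Fin.sum_univ_two]
      simpa using h)
    exact ⟨h1 0, h1 1⟩
  have h0 := hc 0
  have h1 := hc 1
  set Δ : F := c 0 0 * c 1 1 - c 0 1 * c 1 0 with hΔ
  by_cases hz : Δ = 0
  · exfalso
    have e1 := hli (c 1 1) (-(c 0 1)) (by
      rw [h0, h1]
      have : (c 1 1) • ((c 0 0) • S 0 + (c 0 1) • S 1) + (-(c 0 1)) • ((c 1 0) • S 0 +
          (c 1 1) • S 1) = Δ • S 0 := by
        rw [hΔ]
        module
      rw [this, hz, zero_smul])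
    have e2 := hli (c 1 0) (-(c 0 0)) (by
      rw [h0, h1]
      have : (c 1 0) • ((c 0 0) • S 0 + (c 0 1) • S 1) + (-(c 0 0)) • ((c 1 0) • S 0 +
          (c 1 1) • S 1) = -Δ • S 1 := by
        rw [hΔ]
        module
      rw [this, hz, neg_zero, zero_smul])
    have e3 := hli 1 0 (by
      rw [h0, neg_eq_zero.1 e2.2, neg_eq_zero.1 e1.2]
      simp)
    exact one_ne_zero e3.1
  · refine ⟨![![Δ⁻¹ * c 1 1, -(Δ⁻¹ * c 0 1)], ![-(Δ⁻¹ * c 1 0), Δ⁻¹ * c 0 0]], fun e => ?_⟩
    fin_cases e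
    · show S 0 = (Δ⁻¹ * c 1 1) • R 0 + (-(Δ⁻¹ * c 0 1)) • R 1
      rw [h0, h1]
      have : (Δ⁻¹ * c 1 1) • ((c 0 0) • S 0 + (c 0 1) • S 1) + (-(Δ⁻¹ * c 0 1)) • ((c 1 0) • S 0 +
          (c 1 1) • S 1) = (Δ⁻¹ * Δ) • S 0 := by
        rw [hΔ]
        module
      rw [this, inv_mul_cancel₀ hz, one_smul]
    · show S 1 = (-(Δ⁻¹ * c 1 0)) • R 0 + (Δ⁻¹ * c 0 0) • R 1
      rw [h0, h1]
      have : (-(Δ⁻¹ * c 1 0)) • ((c 0 0) • S 0 + (c 0 1) • S 1) + (Δ⁻¹ * c 0 0) • ((c 1 0) • S 0 +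
          (c 1 1) • S 1) = (Δ⁻¹ * Δ) • S 1 := by
        rw [hΔ]
        module
      rw [this, inv_mul_cancel₀ hz, one_smul]

theorem E_li (E : Fin 4 → Fin 4 → F) (hE : (Matrix.of E).det ≠ 0) : LinearIndependent F E := by
  have h1 : IsUnit (Matrix.of E) := (Matrix.isUnit_iff_isUnit_det _).2 (IsUnit.mk0 _ hE)
  exact Matrix.linearIndependent_rows_iff_isUnit.2 h1

theorem row_li (E : Fin 4 → Fin 4 → F) (hE : (Matrix.of E).det ≠ 0) {a : Fin 2 → F} (ha : a ≠ 0) :
    LinearIndependent F (row E a) := by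
  rw [Fintype.linearIndependent_iff]
  intro s hs
  rw [Fin.sum_univ_two] at hs
  have h1 := Fintype.linearIndependent_iff.1 (E_li E hE)
    ![s 0 * a 0, s 1 * a 0, s 0 * a 1, s 1 * a 1] (by
      rw [Fin.sum_univ_four, ← hs]
      simp only [row, Matrix.cons_val]
      module)
  have g0 := h1 0
  have g1 := h1 1
  have g2 := h1 2
  have g3 := h1 3
  simp only [Matrix.cons_val] at g0 g1 g2 g3
  by_cases h : a 0 = 0
  · have h' : a 1 ≠ 0 := by
      intro h'
      apply ha
      funext i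
      fin_cases i
      · exact h
      · exact h'
    intro i
    fin_cases i
    · exact (mul_eq_zero.1 g2).resolve_right h'
    · exact (mul_eq_zero.1 g3).resolve_right h'
  · intro i
    fin_cases i
    · exact (mul_eq_zero.1 g0).resolve_right h
    · exact (mul_eq_zero.1 g1).resolve_right h

theorem swp_det' {E : Fin 4 → Fin 4 → F} (hE : (Matrix.of E).det ≠ 0) :
    (Matrix.of (swp E)).det ≠ 0 := by
  intro h
  obtain ⟨w, hw, h0⟩ := Matrix.exists_mulVec_eq_zero_iff.2 h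
  apply hE
  apply Matrix.exists_mulVec_eq_zero_iff.1
  refine ⟨w, hw, ?_⟩
  funext i
  have h1 : ∀ i, dot (swp E i) w = 0 := fun i => congrFun h0 i
  show dot (E i) w = 0
  rcases (by decide : ∀ l : Fin 4, l = 0 ∨ l = 1 ∨ l = 2 ∨ l = 3) i with rfl | rfl | rfl | rfl
  · exact h1 0
  · exact h1 2
  · exact h1 1
  · exact h1 3

/-- comparison of local heights -/
theorem lm_comp (f : AbsoluteValue F ℝ) (R S : Fin 2 → Fin 4 → F) (c : Fin 2 → Fin 2 → F)
    (hc : ∀ j, R j = c j 0 • S 0 + c j 1 • S 1) :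
    ∃ C : ℝ, 0 ≤ C ∧ ∀ x : Fin 4 → F, 0 < nn f R x →
      0 < nn f S x ∧ lm f S x ≤ lm f R x + C := by
  set B : ℝ := 1 + (f (c 0 0) + f (c 0 1)) + (f (c 1 0) + f (c 1 1)) with hB
  have hn : ∀ i j, 0 ≤ f (c i j) := fun i j => f.nonneg _
  have hB1 : 1 ≤ B := by
    have := hn 0 0
    have := hn 0 1
    have := hn 1 0
    have := hn 1 1
    linarith
  refine ⟨Real.log B, Real.log_nonneg hB1, fun x hR => ?_⟩
  have hle : nn f R x ≤ B * nn f S x := by
    have hS0 := nn_nonneg f S x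
    have key : ∀ j, f (dot (R j) x) ≤ (f (c j 0) + f (c j 1)) * nn f S x := by
      intro j
      rw [hc j, dot_comb]
      refine (f.add_le _ _).trans ?_
      rw [map_mul, map_mul, add_mul]
      exact add_le_add (mul_le_mul_of_nonneg_left (le_nn f S x 0) (hn _ _))
        (mul_le_mul_of_nonneg_left (le_nn f S x 1) (hn _ _))
    refine nn_le fun j => (key j).trans (mul_le_mul_of_nonneg_right ?_ hS0)
    have := hn 0 0
    have := hn 0 1
    have := hn 1 0
    have := hn 1 1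
    fin_cases j
    · show f (c 0 0) + f (c 0 1) ≤ B
      linarith
    · show f (c 1 0) + f (c 1 1) ≤ B
      linarith
  have hS : 0 < nn f S x := by
    by_contra hcon
    have h0 : nn f S x = 0 := le_antisymm (not_lt.1 hcon) (nn_nonneg f S x)
    rw [h0, mul_zero] at hle
    linarith
  refine ⟨hS, ?_⟩
  have h1 := Real.log_le_log hR hle
  rw [Real.log_mul (by linarith) hS.ne'] at h1
  unfold lm
  linarith

end lin

section ext

variable {k K M : Type} [Field k] [Field K] [Field M] [CharZero M] [Algebra k K] [Algebra K M]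
  [Algebra k M] [IsScalarTower k K M]

/-- the value of the quadratic form with the matrix `A` -/
def qv (A : Matrix (Fin 4) (Fin 4) k) {L : Type} [Field L] [Algebra k L] (y : Fin 4 → L) : L :=
  ∑ i, ∑ j, algebraMap k L (A i j) * (y i * y j)

theorem two_qv (A : Matrix (Fin 4) (Fin 4) k) (E : Fin 4 → Fin 4 → M)
    (hA : ∀ i j, 2 * algebraMap k M (A i j) =
      E 0 i * E 3 j + E 3 i * E 0 j - E 1 i * E 2 j - E 2 i * E 1 j)
    {L : Type} [Field L] [Algebra M L] [Algebra k L] [IsScalarTower k M L] (y : Fin 4 → L) :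
    2 * qv A y = 2 * (dot (exv L (E 0)) y * dot (exv L (E 3)) y -
      dot (exv L (E 1)) y * dot (exv L (E 2)) y) := by
  have h1 : ∀ i j, 2 * algebraMap k L (A i j) = algebraMap M L (E 0 i) * algebraMap M L (E 3 j) +
      algebraMap M L (E 3 i) * algebraMap M L (E 0 j) -
      algebraMap M L (E 1 i) * algebraMap M L (E 2 j) -
      algebraMap M L (E 2 i) * algebraMap M L (E 1 j) := by
    intro i j
    have h := congrArg (algebraMap M L) (hA i j)
    rw [map_mul, ← IsScalarTower.algebraMap_apply k M L] at h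
    simp only [map_sub, map_add, map_mul, map_ofNat] at h
    exact h
  have h2 : 2 * qv A y = ∑ i, ∑ j, (2 * algebraMap k L (A i j)) * (y i * y j) := by
    unfold qv
    rw [Finset.mul_sum]
    refine Finset.sum_congr rfl fun i _ => ?_
    rw [Finset.mul_sum]
    exact Finset.sum_congr rfl fun j _ => by ring
  rw [h2]
  simp only [h1, dot, exv, Fin.sum_univ_four]
  ring

theorem on_iff (A : Matrix (Fin 4) (Fin 4) k) (E : Fin 4 → Fin 4 → M)
    (hA : ∀ i j, 2 * algebraMap k M (A i j) =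
      E 0 i * E 3 j + E 3 i * E 0 j - E 1 i * E 2 j - E 2 i * E 1 j) (y : Fin 4 → M) :
    qv A y = 0 ↔ On E y := by
  have h := two_qv A E hA (L := M) y
  have he : ∀ l, exv M (E l) = E l := fun l => rfl
  rw [he, he, he, he] at h
  have h2 : (2 : M) ≠ 0 := two_ne_zero
  have h3 := mul_left_cancel₀ h2 h
  rw [h3, sub_eq_zero]
  rfl

/-- a line on the quadric -/
structure LineOn (A : Matrix (Fin 4) (Fin 4) k) (g : Fin 2 → Fin 4 → K) : Prop where
  li : LinearIndependent K g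
  on : ∀ y : Fin 4 → K, (∀ e, dot (g e) y = 0) → qv A y = 0

theorem qv_exv (A : Matrix (Fin 4) (Fin 4) k) (y : Fin 4 → K) :
    qv A (exv M y) = algebraMap K M (qv A y) := by
  unfold qv
  simp only [map_sum, map_mul, exv, ← IsScalarTower.algebraMap_apply k K M]

theorem exv_add (y z : Fin 4 → K) : exv M (y + z) = exv M y + exv M z := by
  funext b
  simp [exv]

theorem exv_ne {y : Fin 4 → K} (hy : y ≠ 0) : exv M y ≠ 0 := by
  intro h
  apply hy
  funext b
  have := congrFun h b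
  simpa [exv] using this

theorem dot_exv' (g y : Fin 4 → K) : dot (exv M g) (exv M y) = algebraMap K M (dot g y) := by
  simp [dot, exv]

/-- the type of a line on the quadric -/
theorem line_type (A : Matrix (Fin 4) (Fin 4) k) (E : Fin 4 → Fin 4 → M)
    (hE : (Matrix.of E).det ≠ 0)
    (hA : ∀ i j, 2 * algebraMap k M (A i j) =
      E 0 i * E 3 j + E 3 i * E 0 j - E 1 i * E 2 j - E 2 i * E 1 j)
    (g : Fin 2 → Fin 4 → K) (hg : LineOn A g) :
    ∃ T : Ty k M, ((∃ a, T = .ra a ∧ a ≠ 0) ∨ (∃ b, T = .cb b ∧ b ≠ 0)) ∧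
      (∃ c : Fin 2 → Fin 2 → M, ∀ j, fm E T j = c j 0 • exv M (g 0) + c j 1 • exv M (g 1)) ∧
      (∃ d : Fin 2 → Fin 2 → M, ∀ e, exv M (g e) = d e 0 • fm E T 0 + d e 1 • fm E T 1) := by
  obtain ⟨h, p, hp0, hp, hspan⟩ := exists_pts g hg.li
  have hon : ∀ y : Fin 4 → K, (∀ e, dot (g e) y = 0) → On E (exv M y) := by
    intro y hy
    rw [← on_iff A E hA, qv_exv, hg.on y hy, map_zero]
  have hadd : ∀ e, dot (g e) (p 0 + p 1) = 0 := by
    intro e
    have h1 : dot (g e) (p 0 + p 1) = dot (g e) (p 0) + dot (g e) (p 1) := by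
      simp only [dot, Pi.add_apply, mul_add, Finset.sum_add_distrib]
    rw [h1, hp, hp, add_zero]
  have key : ∀ T : Ty k M, ((∃ a, T = .ra a ∧ a ≠ 0) ∨ (∃ b, T = .cb b ∧ b ≠ 0)) →
      LinearIndependent M (fm E T) →
      (∀ j, dot (fm E T j) (exv M (p 0)) = 0 ∧ dot (fm E T j) (exv M (p 1)) = 0) →
      ∃ T : Ty k M, ((∃ a, T = .ra a ∧ a ≠ 0) ∨ (∃ b, T = .cb b ∧ b ≠ 0)) ∧
      (∃ c : Fin 2 → Fin 2 → M, ∀ j, fm E T j = c j 0 • exv M (g 0) + c j 1 • exv M (g 1)) ∧
      (∃ d : Fin 2 → Fin 2 → M, ∀ e, exv M (g e) = d e 0 • fm E T 0 + d e 1 • fm E T 1) := by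
    intro T hT hli hv
    have h1 : ∀ j, ∃ c : Fin 2 → M, fm E T j = c 0 • exv M (g 0) + c 1 • exv M (g 1) := by
      intro j
      refine cmp (fun e => exv M (g e)) (fm E T j) fun y hy => ?_
      have h2 := hspan M y hy
      rw [h2]
      have h3 : ∀ (s t : M) (u w : Fin 4 → M), dot (fm E T j) (s • u + t • w) =
          s * dot (fm E T j) u + t * dot (fm E T j) w := by
        intro s t u w
        simp only [dot, Pi.add_apply, Pi.smul_apply, smul_eq_mul, mul_add, Finset.sum_add_distrib,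
          Finset.mul_sum]
        congr 1
        · exact Finset.sum_congr rfl fun _ _ => by ring
        · exact Finset.sum_congr rfl fun _ _ => by ring
      rw [h3, (hv j).1, (hv j).2, mul_zero, mul_zero, add_zero]
    choose c hc using h1
    exact ⟨T, hT, ⟨c, hc⟩, inv2 (fm E T) (fun e => exv M (g e)) hli c hc⟩
  rcases line_ruling E hE (exv M (p 0)) (exv M (p 1)) (exv_ne (hp0 0)) (exv_ne (hp0 1))
    (hon _ (hp 0)) (hon _ (hp 1)) (by rw [← exv_add]; exact hon _ hadd) with ⟨a, ha, h1⟩ |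
    ⟨b, hb, h1⟩
  · exact key (.ra a) (Or.inl ⟨a, rfl, ha⟩) (row_li E hE ha) h1
  · exact key (.cb b) (Or.inr ⟨b, rfl, hb⟩) (row_li (swp E) (swp_det' hE) hb) h1

end ext

end Pool.Agent.U155.QS
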