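import Mathlib
import Pool.Agent.U155.QS.B

/-!
Vojta's inequality on a smooth quadric surface at one place: from general position of the components
to the inequality.
-/

set_option autoImplicit false
set_option linter.unusedSectionVars false

open Finset

namespace Pool.Agent.U155.QS

open NumberField IsDedekindDomain Height Module MvPolynomial
open Pool.Agent.R405 Pool.Agent.R405.QS
open Pool.Agent.W180.OP (Pl av wt nrm le_nrm nrm_pos nrm_nonneg exists_nrm not_small)

/-- a component: a line on the quadric over `K`, given by two linear forms, or a plane section over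
`k` -/
inductive Component (k K : Type) : Type where
  | line (g : Fin 2 → Fin 4 → K)
  | plane (m : Fin 4 → k)

section sep

variable {M : Type} [Field M]

theorem aeval_lff' {L : Type} [Field L] [Algebra M L] (g : Fin 4 → M) (y : Fin 4 → L) :
    aeval y (lff g) = dot (exv L g) y := by
  simp [lff, dot, exv]

theorem eval_lff' (g x : Fin 4 → M) : eval x (lff g) = dot g x := eval_lff g x

/-- no common zero: not all local heights are large -/
theorem sep {ι : Type} [Fintype ι] (Q : MvPolynomial (Fin 4) M) (hQ : Q.IsHomogeneous 2)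
    (R : ι → Fin 2 → Fin 4 → M)
    (h : ∀ (L : Type) [Field L] [Algebra M L] (y : Fin 4 → L), aeval y Q = 0 →
      (∀ i e, dot (exv L (R i e)) y = 0) → y = 0) (f : AbsoluteValue M ℝ) :
    ∃ C : ℝ, 0 ≤ C ∧ ∀ x : Fin 4 → M, x ≠ 0 → eval x Q = 0 → (∀ i, 0 < nn f (R i) x) →
      ∃ i, lm f (R i) x ≤ C := by
  classical
  obtain ⟨c, hc, hcx⟩ := not_small (K := M) (by norm_num : 0 < 4)
    (fun o : Option (ι × Fin 2) => match o with
      | none => Q
      | some p => lff (R p.1 p.2))
    (fun o : Option (ι × Fin 2) => match o with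
      | none => 2
      | some _ => 1)
    (by
      rintro (_ | p)
      · exact hQ
      · exact lff_hom _)
    (by
      intro L _ _ y hy
      refine h L y (hy none) fun i e => ?_
      rw [← aeval_lff']
      exact hy (some (i, e)))
    f
  refine ⟨|Real.log c|, abs_nonneg _, fun x hx hQx hR => ?_⟩
  have hN := nrm_pos f hx
  obtain ⟨o, ho⟩ := hcx x hx
  rcases o with _ | ⟨i, e⟩
  · exfalso
    have h1 : c * nrm f x ^ 2 ≤ f (eval x Q) := ho
    rw [hQx, map_zero] at h1
    have : 0 < c * nrm f x ^ 2 := by positivity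
    linarith
  · refine ⟨i, ?_⟩
    have h1 : c * nrm f x ^ 1 ≤ f (eval x (lff (R i e))) := ho
    rw [pow_one, eval_lff'] at h1
    have h2 : c * nrm f x ≤ nn f (R i) x := h1.trans (le_nn f _ x e)
    have h3 := Real.log_le_log (by positivity) h2
    rw [Real.log_mul hc.ne' hN.ne'] at h3
    unfold lm
    have := neg_abs_le (Real.log c)
    linarith

/-- two different lines of one ruling have no common point -/
theorem sep_rows (E : Fin 4 → Fin 4 → M) (hE : (Matrix.of E).det ≠ 0) (a a' : Fin 2 → M)
    (ha : a ≠ 0) (y0 : Fin 4 → M) (h0 : ∀ j, dot (row E a j) y0 = 0)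
    (h1 : ¬∀ j, dot (row E a' j) y0 = 0) (f : AbsoluteValue M ℝ) :
    ∃ C : ℝ, 0 ≤ C ∧ ∀ x : Fin 4 → M, x ≠ 0 → 0 < nn f (row E a) x → 0 < nn f (row E a') x →
        min (lm f (row E a) x) (lm f (row E a') x) ≤ C := by
  obtain ⟨C, hC, hx⟩ := sep (ι := Bool) (0 : MvPolynomial (Fin 4) M) (isHomogeneous_zero _ _ _)
    (fun b => if b then row E a else row E a') (by
      intro L _ _ y _ hy
      by_contra hy0
      have e1 : ∀ j, dot (exv L (row E a j)) y = 0 := fun j => hy true j
      have e2 : ∀ j, dot (exv L (row E a' j)) y = 0 := fun j => hy false j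
      have hrow0 : ∀ a : Fin 2 → M, dot (exv L (row E a 0)) y = algebraMap M L (a 0) *
          dot (exv L (E 0)) y + algebraMap M L (a 1) * dot (exv L (E 2)) y := by
        intro a
        simp only [row, dot, exv, Matrix.cons_val, Pi.add_apply, Pi.smul_apply, smul_eq_mul,
          map_add, map_mul, Fin.sum_univ_four]
        ring
      have hrow1 : ∀ a : Fin 2 → M, dot (exv L (row E a 1)) y = algebraMap M L (a 0) *
          dot (exv L (E 1)) y + algebraMap M L (a 1) * dot (exv L (E 3)) y := by
        intro a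
        simp only [row, dot, exv, Matrix.cons_val, Pi.add_apply, Pi.smul_apply, smul_eq_mul,
          map_add, map_mul, Fin.sum_univ_four]
        ring
      have g1 := e1 0
      have g2 := e1 1
      have g3 := e2 0
      have g4 := e2 1
      rw [hrow0] at g1 g3
      rw [hrow1] at g2 g4
      have hdet : a 0 * a' 1 - a 1 * a' 0 = 0 := by
        by_contra hd
        apply hy0
        have hd' : algebraMap M L (a 0) * algebraMap M L (a' 1) -
            algebraMap M L (a 1) * algebraMap M L (a' 0) ≠ 0 := by
          rw [← map_mul, ← map_mul, ← map_sub]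
          exact (map_ne_zero _).2 hd
        have z0 : dot (exv L (E 0)) y = 0 := by
          apply (mul_eq_zero.1 (?_ : _ * dot (exv L (E 0)) y = 0)).resolve_left hd'
          linear_combination algebraMap M L (a' 1) * g1 - algebraMap M L (a 1) * g3
        have z2 : dot (exv L (E 2)) y = 0 := by
          apply (mul_eq_zero.1 (?_ : _ * dot (exv L (E 2)) y = 0)).resolve_left hd'
          linear_combination algebraMap M L (a 0) * g3 - algebraMap M L (a' 0) * g1
        have z1 : dot (exv L (E 1)) y = 0 := by
          apply (mul_eq_zero.1 (?_ : _ * dot (exv L (E 1)) y = 0)).resolve_left hd'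
          linear_combination algebraMap M L (a' 1) * g2 - algebraMap M L (a 1) * g4
        have z3 : dot (exv L (E 3)) y = 0 := by
          apply (mul_eq_zero.1 (?_ : _ * dot (exv L (E 3)) y = 0)).resolve_left hd'
          linear_combination algebraMap M L (a 0) * g4 - algebraMap M L (a' 0) * g2
        by_contra hy0'
        have hdetL : ((Matrix.of E).map (algebraMap M L)).det = 0 := by
          apply Matrix.exists_mulVec_eq_zero_iff.1
          refine ⟨y, hy0', ?_⟩
          funext l
          rcases (by decide : ∀ l : Fin 4, l = 0 ∨ l = 1 ∨ l = 2 ∨ l = 3) l with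
            rfl | rfl | rfl | rfl
          · exact z0
          · exact z1
          · exact z2
          · exact z3
        have h4 : ((Matrix.of E).map (algebraMap M L)).det = algebraMap M L (Matrix.of E).det := by
          rw [RingHom.map_det]
          rfl
        rw [h4, map_eq_zero] at hdetL
        exact hE hdetL
      apply h1
      intro j
      obtain ⟨s, hs⟩ := Function.ne_iff.1 ha
      have hs' : a s ≠ 0 := hs
      have k0 : a s * a' 0 = a' s * a 0 := by
        fin_cases s
        · exact mul_comm _ _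
        · show a 1 * a' 0 = a' 1 * a 0
          linear_combination -hdet
      have k1 : a s * a' 1 = a' s * a 1 := by
        fin_cases s
        · show a 0 * a' 1 = a' 0 * a 1
          linear_combination hdet
        · exact mul_comm _ _
      have p0 := h0 0
      have p1 := h0 1
      rw [dot_row0] at p0
      rw [dot_row1] at p1
      apply (mul_eq_zero.1 (?_ : a s * dot (row E a' j) y0 = 0)).resolve_left hs'
      fin_cases j
      · show a s * dot (row E a' 0) y0 = 0
        rw [dot_row0]
        linear_combination a' s * p0 + dot (E 0) y0 * k0 + dot (E 2) y0 * k1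
      · show a s * dot (row E a' 1) y0 = 0
        rw [dot_row1]
        linear_combination a' s * p1 + dot (E 1) y0 * k0 + dot (E 3) y0 * k1) f
  refine ⟨C, hC, fun x hx0 hp hp' => ?_⟩
  obtain ⟨i, hi⟩ := hx x hx0 (map_zero _) (by
    intro i
    rcases i with _ | _
    · exact hp'
    · exact hp)
  rcases i with _ | _
  · exact (min_le_right _ _).trans hi
  · exact (min_le_left _ _).trans hi

end sep

section main

variable {k K M : Type} [Field k] [NumberField k] [Field K] [NumberField K] [Field M]
  [NumberField M] [Algebra k K] [Algebra K M] [Algebra k M] [IsScalarTower k K M]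

/-- the two linear forms of a component -/
def cf {k K : Type} [Field k] [Field K] [Algebra k K] : Component k K → Fin 2 → Fin 4 → K
  | .line g => g
  | .plane m => fun _ => exv K m

/-- the component is a line on the quadric or a plane section -/
def Valid (A : Matrix (Fin 4) (Fin 4) k) : Component k K → Prop
  | .line g => LineOn A g
  | .plane m => m ≠ 0

theorem exists_type (A : Matrix (Fin 4) (Fin 4) k) (E : Fin 4 → Fin 4 → M)
    (hE : (Matrix.of E).det ≠ 0)
    (hA : ∀ i j, 2 * algebraMap k M (A i j) =
      E 0 i * E 3 j + E 3 i * E 0 j - E 1 i * E 2 j - E 2 i * E 1 j)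
    (D : Component k K) (hD : Valid A D) :
    ∃ T : Ty k M, ((∃ a g, T = .ra a ∧ a ≠ 0 ∧ D = .line g) ∨
        (∃ b g, T = .cb b ∧ b ≠ 0 ∧ D = .line g) ∨ (∃ m, T = .pl m ∧ D = .plane m)) ∧
      (∃ c : Fin 2 → Fin 2 → M, ∀ j, fm E T j = c j 0 • exv M (cf D 0) + c j 1 • exv M (cf D 1)) ∧
      (∃ d : Fin 2 → Fin 2 → M, ∀ e, exv M (cf D e) = d e 0 • fm E T 0 + d e 1 • fm E T 1) := by
  rcases D with g | m
  · obtain ⟨T, hT, hc, hd⟩ := line_type A E hE hA g hD
    refine ⟨T, ?_, hc, hd⟩
    rcases hT with ⟨a, h1, h2⟩ | ⟨b, h1, h2⟩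
    · exact Or.inl ⟨a, g, h1, h2, rfl⟩
    · exact Or.inr (Or.inl ⟨b, g, h1, h2, rfl⟩)
  · have he : exv M (exv K m) = exv M m := by
      funext b
      exact (IsScalarTower.algebraMap_apply k K M (m b)).symm
    refine ⟨.pl m, Or.inr (Or.inr ⟨m, rfl, rfl⟩), ⟨fun _ => ![1, 0], fun j => ?_⟩,
      ⟨fun _ => ![1, 0], fun e => ?_⟩⟩
    · show exv M m = (1 : M) • exv M (exv K m) + (0 : M) • exv M (exv K m)
      rw [one_smul, zero_smul, add_zero, he]
    · show exv M (exv K m) = (1 : M) • exv M m + (0 : M) • exv M m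
      rw [one_smul, zero_smul, add_zero, he]

theorem transfer {L : Type} [Field L] [Algebra M L] (R S : Fin 2 → Fin 4 → M)
    (c : Fin 2 → Fin 2 → M) (hc : ∀ j, R j = c j 0 • S 0 + c j 1 • S 1) (y : Fin 4 → L)
    (hy : ∀ e, dot (exv L (S e)) y = 0) (j : Fin 2) : dot (exv L (R j)) y = 0 := by
  have h1 : dot (exv L (R j)) y = algebraMap M L (c j 0) * dot (exv L (S 0)) y +
      algebraMap M L (c j 1) * dot (exv L (S 1)) y := by
    rw [hc j]
    simp only [dot, exv, Pi.add_apply, Pi.smul_apply, smul_eq_mul, map_add, map_mul,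
      Fin.sum_univ_four]
    ring
  rw [h1, hy, hy, mul_zero, mul_zero, add_zero]

theorem transfer' (R S : Fin 2 → Fin 4 → M)
    (c : Fin 2 → Fin 2 → M) (hc : ∀ j, R j = c j 0 • S 0 + c j 1 • S 1) (y : Fin 4 → M)
    (hy : ∀ e, dot (S e) y = 0) (j : Fin 2) : dot (R j) y = 0 :=
  transfer (L := M) R S c hc y hy j

/-- the inequality over a large field -/
theorem mainM [IsGalois ℚ M] (hi : ∃ z : M, z ^ 2 = -1) (A : Matrix (Fin 4) (Fin 4) k)
    (E : Fin 4 → Fin 4 → M) (hE : (Matrix.of E).det ≠ 0)
    (hA : ∀ i j, 2 * algebraMap k M (A i j) =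
      E 0 i * E 3 j + E 3 i * E 0 j - E 1 i * E 2 j - E 2 i * E 1 j)
    {r : ℕ} (D : Fin r → Component k K) (hD : ∀ i, Valid A (D i))
    (hcont : ∀ i j g, i ≠ j → D i = .line g →
      ∃ y : Fin 4 → K, (∀ e, dot (g e) y = 0) ∧ ¬∀ e, dot (cf (D j) e) y = 0)
    (hthree : ∀ (L : Type) [Field L] (ψ : K →+* L) (y : Fin 4 → L), y ≠ 0 →
      ∑ i, ∑ j, ψ (algebraMap k K (A i j)) * (y i * y j) = 0 → ∀ i j l, i ≠ j → i ≠ l → j ≠ l →
      ¬((∀ e, ∑ b, ψ (cf (D i) e b) * y b = 0) ∧ (∀ e, ∑ b, ψ (cf (D j) e b) * y b = 0) ∧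
        (∀ e, ∑ b, ψ (cf (D l) e b) * y b = 0))) :
    ∃ Z : Finset (Fin 4 → k), (∀ z ∈ Z, z ≠ 0) ∧ ∀ (v : Pl k) (f : AbsoluteValue M ℝ),
      Good v f → ∀ ε : ℝ, 0 < ε → ∃ C : ℝ, ∀ x : Fin 4 → k, x ≠ 0 → qv A x = 0 →
        (∀ z ∈ Z, ∑ j, z j * x j ≠ 0) → (∀ i m, D i = .plane m → ∑ j, m j * x j ≠ 0) →
        (∀ i, 0 < nn f (fun e => exv M (cf (D i) e)) (exv M x)) ∧
        wt v * ∑ i, lm f (fun e => exv M (cf (D i) e)) (exv M x) ≤ (2 + ε) * logHeight x + C := by
  classical
  choose T hT hc hd using fun i => exists_type (M := M) A E hE hA (D i) (hD i)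
  choose c hc using hc
  choose d hd using hd
  have hKM : ∀ (g y : Fin 4 → K), dot (exv M g) (exv M y) = 0 ↔ dot g y = 0 := by
    intro g y
    rw [dot_exv', map_eq_zero]
  -- containment
  have hcM : ∀ i j g, i ≠ j → D i = .line g → ∃ y : Fin 4 → M, (∀ e, dot (fm E (T i) e) y = 0) ∧
      ¬∀ e, dot (fm E (T j) e) y = 0 := by
    intro i j g hij hg
    obtain ⟨y, hy1, hy2⟩ := hcont i j g hij hg
    refine ⟨exv M y, fun e => ?_, fun hcon => hy2 fun e => ?_⟩
    · refine transfer' (fm E (T i)) (fun e => exv M (cf (D i) e)) (c i) (hc i) _ (fun e => ?_) e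
      rw [hKM, hg]
      exact hy1 e
    · rw [← hKM]
      exact transfer' (fun e => exv M (cf (D j) e)) (fm E (T j)) (d j) (hd j) _ hcon e
  have hok : Ok E T := by
    refine ⟨fun i a h => ?_, fun i b h => ?_, fun i a j m h1 h2 h0 => ?_,
      fun i b j m h1 h2 h0 => ?_⟩
    · rcases hT i with ⟨a', _, h1, h2, _⟩ | ⟨b', _, h1, h2, _⟩ | ⟨m, h1, h2⟩
      · rw [h] at h1
        injection h1 with h1
        rwa [h1]
      · rw [h] at h1
        cases h1
      · rw [h] at h1
        cases h1
    · rcases hT i with ⟨a', _, h1, h2, _⟩ | ⟨b', _, h1, h2, _⟩ | ⟨m, h1, h2⟩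
      · rw [h] at h1
        cases h1
      · rw [h] at h1
        injection h1 with h1
        rwa [h1]
      · rw [h] at h1
        cases h1
    · have hij : i ≠ j := by
        rintro rfl
        rw [h1] at h2
        cases h2
      have hline : ∃ g, D i = .line g := by
        rcases hT i with ⟨a', g, _, _, h⟩ | ⟨b', g, h3, _, h⟩ | ⟨m, h3, h4⟩
        · exact ⟨g, h⟩
        · exact ⟨g, h⟩
        · rw [h1] at h3
          cases h3
      have ha : a ≠ 0 := by
        rcases hT i with ⟨a', _, h3, h4, _⟩ | ⟨b', _, h3, h4, _⟩ | ⟨m, h3, h4⟩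
        · rw [h1] at h3
          injection h3 with h3
          rwa [h3]
        · rw [h1] at h3
          cases h3
        · rw [h1] at h3
          cases h3
      obtain ⟨g, hg⟩ := hline
      obtain ⟨y, hy1, hy2⟩ := hcM i j g hij hg
      apply hy2
      intro e
      rw [h2]
      show dot (exv M m) y = 0
      rw [h1] at hy1
      have r0 : dot (row E a 0) y = 0 := hy1 0
      have r1 : dot (row E a 1) y = 0 := hy1 1
      have o0 := oth0 E hE (exv M m) a y
      have o1 := oth1 E hE (exv M m) a y
      rw [h0, r0, r1] at o0 o1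
      have z0 : dot (row (swp E) (0 : Fin 2 → M) 0) y = 0 := by
        rw [dot_row0]
        simp
      have z1 : dot (row (swp E) (0 : Fin 2 → M) 1) y = 0 := by
        rw [dot_row1]
        simp
      rw [z0] at o0
      rw [z1] at o1
      by_cases h : a 0 = 0
      · have h' : a 1 ≠ 0 := by
          intro h'
          apply ha
          funext i
          fin_cases i
          · exact h
          · exact h'
        apply (mul_eq_zero.1 (?_ : a 1 * _ = 0)).resolve_left h'
        linear_combination o0
      · apply (mul_eq_zero.1 (?_ : a 0 * _ = 0)).resolve_left h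
        linear_combination -o1
    · have hij : i ≠ j := by
        rintro rfl
        rw [h1] at h2
        cases h2
      have hline : ∃ g, D i = .line g := by
        rcases hT i with ⟨a', g, _, _, h⟩ | ⟨b', g, h3, _, h⟩ | ⟨m, h3, h4⟩
        · exact ⟨g, h⟩
        · exact ⟨g, h⟩
        · rw [h1] at h3
          cases h3
      have ha : b ≠ 0 := by
        rcases hT i with ⟨a', _, h3, h4, _⟩ | ⟨b', _, h3, h4, _⟩ | ⟨m, h3, h4⟩
        · rw [h1] at h3
          cases h3
        · rw [h1] at h3
          injection h3 with h3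
          rwa [h3]
        · rw [h1] at h3
          cases h3
      obtain ⟨g, hg⟩ := hline
      obtain ⟨y, hy1, hy2⟩ := hcM i j g hij hg
      apply hy2
      intro e
      rw [h2]
      show dot (exv M m) y = 0
      rw [h1] at hy1
      have r0 : dot (row (swp E) b 0) y = 0 := hy1 0
      have r1 : dot (row (swp E) b 1) y = 0 := hy1 1
      have o0 := oth0 (swp E) (swp_det hE) (exv M m) b y
      have o1 := oth1 (swp E) (swp_det hE) (exv M m) b y
      rw [h0, r0, r1] at o0 o1
      have z0 : dot (row (swp (swp E)) (0 : Fin 2 → M) 0) y = 0 := by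
        rw [dot_row0]
        simp
      have z1 : dot (row (swp (swp E)) (0 : Fin 2 → M) 1) y = 0 := by
        rw [dot_row1]
        simp
      rw [z0] at o0
      rw [z1] at o1
      by_cases h : b 0 = 0
      · have h' : b 1 ≠ 0 := by
          intro h'
          apply ha
          funext i
          fin_cases i
          · exact h
          · exact h'
        apply (mul_eq_zero.1 (?_ : b 1 * _ = 0)).resolve_left h'
        linear_combination o0
      · apply (mul_eq_zero.1 (?_ : b 0 * _ = 0)).resolve_left h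
        linear_combination -o1
  have hisline : ∀ i, (∃ a, T i = .ra a) ∨ (∃ b, T i = .cb b) → ∃ g, D i = .line g := by
    intro i h
    rcases hT i with ⟨a', g, _, _, h'⟩ | ⟨b', g, h3, _, h'⟩ | ⟨m, h3, h4⟩
    · exact ⟨g, h'⟩
    · exact ⟨g, h'⟩
    · rcases h with ⟨a, h⟩ | ⟨a, h⟩
      · rw [h] at h3
        cases h3
      · rw [h] at h3
        cases h3
  obtain ⟨Z, hZ, hmain⟩ := quadK (k := k) hi E hE T hok (by
    intro i j a a' hij h1 h2 f
    obtain ⟨g, hg⟩ := hisline i (Or.inl ⟨a, h1⟩)
    obtain ⟨y, hy1, hy2⟩ := hcM i j g hij hg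
    rw [h1] at hy1
    rw [h2] at hy2
    exact sep_rows E hE a a' (hok.1 i a h1) y hy1 hy2 f) (by
    intro i j b b' hij h1 h2 f
    obtain ⟨g, hg⟩ := hisline i (Or.inr ⟨b, h1⟩)
    obtain ⟨y, hy1, hy2⟩ := hcM i j g hij hg
    rw [h1] at hy1
    rw [h2] at hy2
    exact sep_rows (swp E) (swp_det hE) b b' (hok.2.1 i b h1) y hy1 hy2 f) (by
    intro i j l hij hil hjl f
    obtain ⟨C, hC, hx⟩ := sep (ι := Fin 3) (lff (E 0) * lff (E 3) - lff (E 1) * lff (E 2))
      (((lff_hom _).mul (lff_hom _)).sub ((lff_hom _).mul (lff_hom _)))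
      (fun s => fm E (T (![i, j, l] s))) (by
        intro L _ _ y hQ hy
        by_contra hy0
        have := hthree L ((algebraMap M L).comp (algebraMap K M)) y hy0 ?_ i j l hij hil hjl
        · apply this
          have key : ∀ s : Fin 3, ∀ e, ∑ b, ((algebraMap M L).comp (algebraMap K M))
              (cf (D (![i, j, l] s)) e b) * y b = 0 := fun s e =>
            transfer (fun e => exv M (cf (D (![i, j, l] s)) e)) (fm E (T (![i, j, l] s)))
              (d (![i, j, l] s)) (hd (![i, j, l] s)) y (hy s) e
          exact ⟨key 0, key 1, key 2⟩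
        · let _ : Algebra k L := ((algebraMap M L).comp (algebraMap k M)).toAlgebra
          have : IsScalarTower k M L := IsScalarTower.of_algebraMap_eq fun _ => rfl
          have : CharZero L := charZero_of_injective_algebraMap (algebraMap M L).injective
          have h2 := two_qv A E hA (L := L) y
          have h3 : dot (exv L (E 0)) y * dot (exv L (E 3)) y -
              dot (exv L (E 1)) y * dot (exv L (E 2)) y = 0 := by
            rw [map_sub, map_mul, map_mul, aeval_lff', aeval_lff', aeval_lff', aeval_lff'] at hQ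
            exact hQ
          rw [h3, mul_zero] at h2
          have h4 := (mul_eq_zero.1 h2).resolve_left two_ne_zero
          have h5 : ∀ a b, ((algebraMap M L).comp (algebraMap K M)) (algebraMap k K (A a b)) =
              algebraMap k L (A a b) := by
            intro a b
            show algebraMap M L (algebraMap K M (algebraMap k K (A a b))) =
              algebraMap M L (algebraMap k M (A a b))
            rw [← IsScalarTower.algebraMap_apply k K M]
          simp only [h5]
          exact h4) f
    refine ⟨C, hC, fun x hx0 hon hpos => ?_⟩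
    obtain ⟨s, hs⟩ := hx x hx0 (by
      rw [map_sub, map_mul, map_mul, eval_lff', eval_lff', eval_lff', eval_lff', sub_eq_zero]
      exact hon) (fun s => hpos _)
    fin_cases s
    · exact (min_le_left _ _).trans hs
    · exact (min_le_right _ _).trans ((min_le_left _ _).trans hs)
    · exact (min_le_right _ _).trans ((min_le_right _ _).trans hs))
  refine ⟨Z, hZ, fun v f hf ε hε => ?_⟩
  obtain ⟨C, hC⟩ := hmain v f hf ε hε
  choose C1 hC10 hC1 using fun i => lm_comp f (fm E (T i)) (fun e => exv M (cf (D i) e)) (c i)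
    (hc i)
  refine ⟨C + wt v * ∑ i, C1 i, fun x hx hq hxZ hxm => ?_⟩
  have hon : On E (exv M x) := by
    rw [← on_iff A E hA]
    have h1 : qv A (exv M x) = algebraMap k M (qv A x) := by
      unfold qv
      simp only [map_sum, map_mul, exv]
      rfl
    rw [h1, hq, map_zero]
  obtain ⟨hpos, hle⟩ := hC x hx hon hxZ (by
    intro i m h
    rcases hT i with ⟨a', g, h3, _, _⟩ | ⟨b', g, h3, _, _⟩ | ⟨m', h3, h4⟩
    · rw [h] at h3
      cases h3
    · rw [h] at h3
      cases h3
    · rw [h] at h3
      injection h3 with h3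
      rw [h3]
      exact hxm i m' h4)
  refine ⟨fun i => (hC1 i _ (hpos i)).1, ?_⟩
  have h1 : ∑ i, lm f (fun e => exv M (cf (D i) e)) (exv M x) ≤
      ∑ i, lm f (fm E (T i)) (exv M x) + ∑ i, C1 i := by
    rw [← Finset.sum_add_distrib]
    exact Finset.sum_le_sum fun i _ => (hC1 i _ (hpos i)).2
  have h2 := mul_le_mul_of_nonneg_left h1 (Pool.Agent.W180.OP.wt_nonneg v)
  rw [mul_add] at h2
  linarith

end main

end Pool.Agent.U155.QS
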